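import Pool.Agent.Helper23.Conf.Data
import Pool.Agent.Helper23.Conf.Cert

set_option autoImplicit false

namespace Pool.Agent.Helper23.Conf

/-- incidence table -/
def T (i j : ℕ) : Bool := Nat.testBit M (246 * i + j)

def Tt (j i : ℕ) : Bool := Nat.testBit Mt (246 * j + i)

def rowOf (i : ℕ) : ℕ := (M >>> (246 * i)) % 2 ^ 246

def colOf (j : ℕ) : ℕ := (Mt >>> (246 * j)) % 2 ^ 246

def rowCheck (X Y W S : ℕ) : ℕ → List (ℕ × ℕ × ℕ) → Bool
  | _, [] => true
  | m, l :: t =>
    bif Nat.beq (l.1 * X + l.2.1 * Y + l.2.2 * W) S then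
      (bif Nat.beq (m % 2) 0 then false else rowCheck X Y W S (m / 2) t)
    else
      (bif Nat.beq (m % 2) 0 then rowCheck X Y W S (m / 2) t else false)

def allIdx {α : Type} (f : ℕ → α → Bool) : ℕ → List α → Bool
  | _, [] => true
  | k, a :: t => f k a && allIdx f (k + 1) t

theorem allIdx_spec {α : Type} (f : ℕ → α → Bool) (l : List α) :
    ∀ (k : ℕ), allIdx f k l = true → ∀ (i : ℕ) (hi : i < l.length), f (k + i) (l[i]) = true := by
  induction l with
  | nil => intro k _ i hi; simp at hi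
  | cons a t ih =>
    intro k h i hi
    rw [allIdx, Bool.and_eq_true] at h
    cases i with
    | zero => simpa using h.1
    | succ i =>
      have := ih (k + 1) h.2 i (by simpa using hi)
      simpa [Nat.add_assoc, Nat.add_comm 1 i] using this

theorem rowCheck_spec (X Y W S : ℕ) (l : List (ℕ × ℕ × ℕ)) :
    ∀ m : ℕ, rowCheck X Y W S m l = true → ∀ (j : ℕ) (hj : j < l.length),
      ((l[j]).1 * X + (l[j]).2.1 * Y + (l[j]).2.2 * W = S ↔ m.testBit j = true) := by
  induction l with
  | nil => intro m _ j hj; simp at hj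
  | cons a t ih =>
    intro m h j hj
    rw [rowCheck] at h
    have key : (a.1 * X + a.2.1 * Y + a.2.2 * W = S ↔ m.testBit 0 = true) ∧
        rowCheck X Y W S (m / 2) t = true := by
      rcases hb : Nat.beq (a.1 * X + a.2.1 * Y + a.2.2 * W) S with _ | _
      · rw [hb, cond_false] at h
        rcases hm : Nat.beq (m % 2) 0 with _ | _
        · rw [hm, cond_false] at h; exact absurd h (by simp)
        · rw [hm, cond_true] at h
          have h1 : m % 2 = 0 := Nat.eq_of_beq_eq_true hm
          have h2 : a.1 * X + a.2.1 * Y + a.2.2 * W ≠ S := Nat.ne_of_beq_eq_false hb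
          refine ⟨?_, h⟩
          rw [Nat.testBit_zero]
          simp [h1, h2]
      · rw [hb, cond_true] at h
        rcases hm : Nat.beq (m % 2) 0 with _ | _
        · rw [hm, cond_false] at h
          have h1 : m % 2 ≠ 0 := Nat.ne_of_beq_eq_false hm
          have h2 : a.1 * X + a.2.1 * Y + a.2.2 * W = S := Nat.eq_of_beq_eq_true hb
          refine ⟨?_, h⟩
          rw [Nat.testBit_zero]
          simp [h2]
          omega
        · rw [hm, cond_true] at h; exact absurd h (by simp)
    cases j with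
    | zero => simpa using key.1
    | succ j =>
      have := ih (m / 2) key.2 j (by simpa using hj)
      rw [Nat.testBit_succ]
      simpa using this

def adjB (u v : ℕ) : Bool :=
  bif Nat.ble 246 u then
    (bif Nat.ble 246 v then false
     else (Nat.ble u 491 && T v (u - 246)))
  else
    (bif Nat.ble 246 v then (Nat.ble v 491 && T u (v - 246)) else false)

def dec : ℕ → ℕ → List ℕ
  | 0, _ => []
  | f + 1, n => bif Nat.beq n 0 then [] else (n % 512 - 1) :: dec f (n / 512)

def chain (r : ℕ) : ℕ → List ℕ → Bool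
  | u, [] => adjB u r
  | u, x :: t => adjB u x && chain r x t

def nd : ℕ → List ℕ → Bool
  | _, [] => true
  | m, x :: t => (bif Nat.testBit m x then false else nd (m ||| 2 ^ x) t)

def fanOK (r v : ℕ) (l1 l2 l3 l4 : List ℕ) : Bool :=
  chain r v l1 && (chain r v l2 && (chain r v l3 && (chain r v l4 &&
    nd 0 (l1 ++ (l2 ++ (l3 ++ l4))))))

def fan3OK (a b : ℕ) (l1 l2 l3 : List ℕ) : Bool :=
  chain b a l1 && (chain b a l2 && (chain b a l3 &&
    nd (2 ^ 250) (l1 ++ (l2 ++ l3))))

theorem check_inc : allIdx (fun i p => rowCheck p.1 p.2.1 p.2.2 (K * (p.1 + p.2.1 + p.2.2))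
    (rowOf i) lnL) 0 ptL = true := by
  decide +kernel

theorem check_W : ptL.all (fun p => Nat.blt 0 p.2.2) = true := by
  decide +kernel

theorem check_AB : lnL.all (fun l => !(Nat.beq l.1 K && Nat.beq l.2.1 K)) = true := by
  decide +kernel

theorem check_row : allIdx (fun i c => Nat.beq (rowOf i)
    (((2 ^ c.1 ||| 2 ^ c.2.1) ||| 2 ^ c.2.2.1) ||| 2 ^ c.2.2.2) &&
    (Nat.blt c.1 c.2.1 && (Nat.blt c.2.1 c.2.2.1 && (Nat.blt c.2.2.1 c.2.2.2 &&
    (Nat.blt c.2.2.2 246 && (Tt c.1 i && (Tt c.2.1 i && (Tt c.2.2.1 i && Tt c.2.2.2 i)))))))) 0 nbL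
    = true := by
  decide +kernel

theorem check_col : allIdx (fun i c => Nat.beq (colOf i)
    (((2 ^ c.1 ||| 2 ^ c.2.1) ||| 2 ^ c.2.2.1) ||| 2 ^ c.2.2.2) &&
    (Nat.blt c.1 c.2.1 && (Nat.blt c.2.1 c.2.2.1 && (Nat.blt c.2.2.1 c.2.2.2 &&
    (Nat.blt c.2.2.2 246 && (T c.1 i && (T c.2.1 i && (T c.2.2.1 i && T c.2.2.2 i)))))))) 0 ncL
    = true := by
  decide +kernel

theorem check_fan : allIdx (fun v c => Nat.beq v 250 || fanOK 250 v (dec 40 c.1) (dec 40 c.2.1)
    (dec 40 c.2.2.1) (dec 40 c.2.2.2)) 0 fanL = true := by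
  decide +kernel

theorem check_pr : prL.all (fun c => fan3OK c.1 c.2.1 (dec 40 c.2.2.1)
    (dec 40 c.2.2.2.1) (dec 40 c.2.2.2.2)) = true := by
  decide +kernel

theorem check_rowinj : allIdx (fun i c => Nat.beq (colOf c.1 &&& colOf c.2.1) (2 ^ i)) 0 nbL
    = true := by
  decide +kernel

theorem check_colinj : allIdx (fun i c => Nat.beq (rowOf c.1 &&& rowOf c.2.1) (2 ^ i)) 0 ncL
    = true := by
  decide +kernel

theorem len_pt : ptL.length = 246 := by decide +kernel
theorem len_ln : lnL.length = 246 := by decide +kernel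
theorem len_nb : nbL.length = 246 := by decide +kernel
theorem len_nc : ncL.length = 246 := by decide +kernel
theorem len_fan : fanL.length = 492 := by decide +kernel

end Pool.Agent.Helper23.Conf
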