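import Pool.Agent.Helper23.Conf.Check

set_option autoImplicit false

namespace Pool.Agent.Helper23.Conf

def R (S : Finset ℕ) (u v : ℕ) : Prop := adjB u v = true ∧ u ∉ S ∧ v ∉ S

theorem adjB_symm (u v : ℕ) : adjB u v = adjB v u := by
  unfold adjB
  rcases Nat.ble 246 u with _ | _ <;> rcases Nat.ble 246 v with _ | _ <;> rfl

theorem adjB_lt (u v : ℕ) (h : adjB u v = true) : u < 492 ∧ v < 492 := by
  unfold adjB at h
  rcases hu : Nat.ble 246 u with _ | _ <;> rcases hv : Nat.ble 246 v with _ | _ <;>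
    rw [hu, hv] at h
  · simp at h
  · simp only [cond_true, cond_false, Bool.and_eq_true] at h
    have h1 := Nat.le_of_ble_eq_true h.1
    have h2 : ¬ (246 ≤ u) := fun hc => by
      rw [Nat.ble_eq_true_of_le hc] at hu; exact absurd hu (by simp)
    omega
  · simp only [cond_true, cond_false, Bool.and_eq_true] at h
    have h1 := Nat.le_of_ble_eq_true h.1
    have h2 : ¬ (246 ≤ v) := fun hc => by
      rw [Nat.ble_eq_true_of_le hc] at hv; exact absurd hv (by simp)
    omega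
  · simp at h

theorem R_symm (S : Finset ℕ) (u v : ℕ) (h : R S u v) : R S v u :=
  ⟨by rw [adjB_symm]; exact h.1, h.2.2, h.2.1⟩

theorem rtg_symm {S : Finset ℕ} {u v : ℕ} (h : Relation.ReflTransGen (R S) u v) :
    Relation.ReflTransGen (R S) v u := by
  induction h with
  | refl => exact Relation.ReflTransGen.refl
  | tail _ h2 ih => exact Relation.ReflTransGen.head (R_symm S _ _ h2) ih

theorem chain_spec (S : Finset ℕ) (r : ℕ) (l : List ℕ) : ∀ u : ℕ, chain r u l = true → u ∉ S →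
    (∀ x ∈ l, x ∉ S) → ∃ w, adjB w r = true ∧ w ∉ S ∧ Relation.ReflTransGen (R S) u w := by
  induction l with
  | nil => intro u h hu _; exact ⟨u, h, hu, Relation.ReflTransGen.refl⟩
  | cons x t ih =>
    intro u h hu hl
    rw [chain, Bool.and_eq_true] at h
    have hx : x ∉ S := hl x (by simp)
    obtain ⟨w, h1, h2, h3⟩ := ih x h.2 hx (fun y hy => hl y (by simp [hy]))
    exact ⟨w, h1, h2, Relation.ReflTransGen.head ⟨h.1, hu, hx⟩ h3⟩

theorem nd_spec (l : List ℕ) : ∀ m : ℕ, nd m l = true →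
    l.Nodup ∧ ∀ x ∈ l, m.testBit x = false := by
  induction l with
  | nil => intro m _; simp
  | cons x t ih =>
    intro m h
    rw [nd] at h
    rcases hb : m.testBit x with _ | _
    · rw [hb, cond_false] at h
      obtain ⟨h1, h2⟩ := ih _ h
      have h3 : ∀ y ∈ t, m.testBit y = false ∧ x ≠ y := by
        intro y hy
        have := h2 y hy
        rw [Nat.testBit_or, Nat.testBit_two_pow, Bool.or_eq_false_iff] at this
        exact ⟨this.1, by simpa using this.2⟩
      refine ⟨List.nodup_cons.2 ⟨fun hx => (h3 x hx).2 rfl, h1⟩, ?_⟩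
      intro y hy
      rcases List.mem_cons.1 hy with rfl | hy
      · exact hb
      · exact (h3 y hy).1
    · rw [hb, cond_true] at h
      exact absurd h (by simp)

theorem pigeon4 (S : Finset ℕ) (hS : S.card ≤ 3) (l1 l2 l3 l4 : List ℕ)
    (h : (l1 ++ (l2 ++ (l3 ++ l4))).Nodup) :
    (∀ x ∈ l1, x ∉ S) ∨ (∀ x ∈ l2, x ∉ S) ∨ (∀ x ∈ l3, x ∉ S) ∨ (∀ x ∈ l4, x ∉ S) := by
  by_contra hc
  push Not at hc
  obtain ⟨⟨a, ha, haS⟩, ⟨b, hb, hbS⟩, ⟨c, hc, hcS⟩, ⟨d, hd, hdS⟩⟩ := hc
  rw [List.nodup_append] at h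
  obtain ⟨-, h, h1⟩ := h
  rw [List.nodup_append] at h
  obtain ⟨-, h, h2⟩ := h
  rw [List.nodup_append] at h
  obtain ⟨-, -, h3⟩ := h
  have e1 : a ≠ b := h1 a ha b (by simp [hb])
  have e2 : a ≠ c := h1 a ha c (by simp [hc])
  have e3 : a ≠ d := h1 a ha d (by simp [hd])
  have e4 : b ≠ c := h2 b hb c (by simp [hc])
  have e5 : b ≠ d := h2 b hb d (by simp [hd])
  have e6 : c ≠ d := h3 c hc d hd
  have hsub : ({a, b, c, d} : Finset ℕ) ⊆ S := by
    intro x hx
    simp only [Finset.mem_insert, Finset.mem_singleton] at hx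
    rcases hx with rfl | rfl | rfl | rfl <;> assumption
  have hcard := Finset.card_le_card hsub
  rw [Finset.card_insert_of_notMem, Finset.card_insert_of_notMem, Finset.card_insert_of_notMem,
    Finset.card_singleton] at hcard
  · omega
  all_goals simp [*]

theorem pigeon3 (S : Finset ℕ) (hS : S.card ≤ 2) (l1 l2 l3 : List ℕ)
    (h : (l1 ++ (l2 ++ l3)).Nodup) :
    (∀ x ∈ l1, x ∉ S) ∨ (∀ x ∈ l2, x ∉ S) ∨ (∀ x ∈ l3, x ∉ S) := by
  by_contra hc
  push Not at hc
  obtain ⟨⟨a, ha, haS⟩, ⟨b, hb, hbS⟩, ⟨c, hc, hcS⟩⟩ := hc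
  rw [List.nodup_append] at h
  obtain ⟨-, h, h1⟩ := h
  rw [List.nodup_append] at h
  obtain ⟨-, -, h2⟩ := h
  have e1 : a ≠ b := h1 a ha b (by simp [hb])
  have e2 : a ≠ c := h1 a ha c (by simp [hc])
  have e4 : b ≠ c := h2 b hb c hc
  have hsub : ({a, b, c} : Finset ℕ) ⊆ S := by
    intro x hx
    simp only [Finset.mem_insert, Finset.mem_singleton] at hx
    rcases hx with rfl | rfl | rfl <;> assumption
  have hcard := Finset.card_le_card hsub
  rw [Finset.card_insert_of_notMem, Finset.card_insert_of_notMem,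
    Finset.card_singleton] at hcard
  · omega
  all_goals simp [*]

theorem fan_reach (S : Finset ℕ) (hS : S.card ≤ 3) (v : ℕ) (hv : v < 492) (hvS : v ∉ S)
    (hne : v ≠ 250) :
    ∃ w, adjB w 250 = true ∧ w ∉ S ∧ Relation.ReflTransGen (R S) v w := by
  have h := allIdx_spec _ _ 0 check_fan v (by rw [len_fan]; exact hv)
  simp only [Nat.zero_add, Bool.or_eq_true, fanOK, Bool.and_eq_true] at h
  rcases h with h | ⟨c1, c2, c3, c4, hn⟩
  · exact absurd (Nat.eq_of_beq_eq_true h) hne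
  · obtain ⟨hnd, -⟩ := nd_spec _ _ hn
    rcases pigeon4 S hS _ _ _ _ hnd with h | h | h | h
    · exact chain_spec S 250 _ v c1 hvS h
    · exact chain_spec S 250 _ v c2 hvS h
    · exact chain_spec S 250 _ v c3 hvS h
    · exact chain_spec S 250 _ v c4 hvS h

theorem nbr250 : ∀ w : Fin 492, adjB w.1 250 = true →
    w.1 = 138 ∨ w.1 = 141 ∨ w.1 = 142 ∨ w.1 = 145 := by
  decide +kernel

theorem pr_exists : ∀ a ∈ [138, 141, 142, 145], ∀ b ∈ [138, 141, 142, 145], a < b →
    ∃ c ∈ prL, c.1 = a ∧ c.2.1 = b := by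
  decide +kernel

theorem pair_reach (S : Finset ℕ) (hS : S.card ≤ 3) (h250 : 250 ∈ S) (a b : ℕ)
    (ha : a ∈ [138, 141, 142, 145]) (hb : b ∈ [138, 141, 142, 145]) (hab : a < b)
    (haS : a ∉ S) (hbS : b ∉ S) : Relation.ReflTransGen (R S) a b := by
  obtain ⟨c, hc, h1, h2⟩ := pr_exists a ha b hb hab
  have h := List.all_eq_true.1 check_pr c hc
  simp only [fan3OK, Bool.and_eq_true] at h
  obtain ⟨c1, c2, c3, hn⟩ := h
  obtain ⟨hnd, hbit⟩ := nd_spec _ _ hn
  rw [h1, h2] at c1 c2 c3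
  have hS' : (S.erase 250).card ≤ 2 := by
    rw [Finset.card_erase_of_mem h250]; omega
  have fix : ∀ l : List ℕ, (∀ x ∈ l, (2 ^ 250).testBit x = false) → (∀ x ∈ l, x ∉ S.erase 250) →
      ∀ x ∈ l, x ∉ S := by
    intro l hl hl' x hx hxS
    have h3 := hl x hx
    rw [Nat.testBit_two_pow] at h3
    have h4 : x ≠ 250 := fun he => by simp [he] at h3
    exact hl' x hx (Finset.mem_erase.2 ⟨h4, hxS⟩)
  have fin : ∀ l : List ℕ, chain b a l = true → (∀ x ∈ l, x ∉ S) →
      Relation.ReflTransGen (R S) a b := by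
    intro l hl hlS
    obtain ⟨w, g1, g2, g3⟩ := chain_spec S b l a hl haS hlS
    exact Relation.ReflTransGen.tail g3 ⟨g1, g2, hbS⟩
  rcases pigeon3 _ hS' _ _ _ hnd with h | h | h
  · exact fin _ c1 (fix _ (fun x hx => hbit x (by simp [hx])) h)
  · exact fin _ c2 (fix _ (fun x hx => hbit x (by simp [hx])) h)
  · exact fin _ c3 (fix _ (fun x hx => hbit x (by simp [hx])) h)

theorem conn (S : Finset ℕ) (hS : S.card ≤ 3) (u v : ℕ) (hu : u < 492) (hv : v < 492)
    (huS : u ∉ S) (hvS : v ∉ S) : Relation.ReflTransGen (R S) u v := by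
  by_cases h250 : 250 ∈ S
  · have key : ∀ x, x < 492 → x ∉ S → ∃ w, w ∈ [138, 141, 142, 145] ∧ w ∉ S ∧
        Relation.ReflTransGen (R S) x w := by
      intro x hx hxS
      have hne : x ≠ 250 := fun h => hxS (h ▸ h250)
      obtain ⟨w, h1, h2, h3⟩ := fan_reach S hS x hx hxS hne
      refine ⟨w, ?_, h2, h3⟩
      have := nbr250 ⟨w, (adjB_lt _ _ h1).1⟩ h1
      simpa using this
    obtain ⟨w1, m1, s1, r1⟩ := key u hu huS
    obtain ⟨w2, m2, s2, r2⟩ := key v hv hvS
    have h12 : Relation.ReflTransGen (R S) w1 w2 := by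
      rcases lt_trichotomy w1 w2 with h | h | h
      · exact pair_reach S hS h250 w1 w2 m1 m2 h s1 s2
      · rw [h]
      · exact rtg_symm (pair_reach S hS h250 w2 w1 m2 m1 h s2 s1)
    exact (r1.trans h12).trans (rtg_symm r2)
  · have key : ∀ x, x < 492 → x ∉ S → Relation.ReflTransGen (R S) x 250 := by
      intro x hx hxS
      by_cases hne : x = 250
      · rw [hne]
      · obtain ⟨w, h1, h2, h3⟩ := fan_reach S hS x hx hxS hne
        exact Relation.ReflTransGen.tail h3 ⟨h1, h2, h250⟩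
    exact (key u hu huS).trans (rtg_symm (key v hv hvS))

end Pool.Agent.Helper23.Conf
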