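import Mathlib

set_option autoImplicit false

namespace Pool.Agent.Helper23.Conf

/-- `l` is a straight line of the real plane. -/
def IsLine (l : Set (ℝ × ℝ)) : Prop :=
  ∃ a b c : ℝ, (a ≠ 0 ∨ b ≠ 0) ∧ l = {p | a * p.1 + b * p.2 = c}

/-- The `n` points of `P` and the `n` lines of `L` form a geometric configuration `(n_k)`. -/
def IsGeometricConfiguration (n k : ℕ) (P : Finset (ℝ × ℝ)) (L : Finset (Set (ℝ × ℝ))) : Prop :=
  P.card = n ∧ L.card = n ∧ (∀ l ∈ L, IsLine l) ∧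
    (∀ p ∈ P, {l | l ∈ L ∧ p ∈ l}.ncard = k) ∧ (∀ l ∈ L, {p | p ∈ P ∧ p ∈ l}.ncard = k)

/-- The Levi graph: points and lines, a point being adjacent to the lines containing it. -/
def leviGraph (P : Finset (ℝ × ℝ)) (L : Finset (Set (ℝ × ℝ))) :
    SimpleGraph ({p // p ∈ P} ⊕ {l // l ∈ L}) :=
  SimpleGraph.fromRel (fun a b => ∃ p l, a = Sum.inl p ∧ b = Sum.inr l ∧ p.1 ∈ l.1)

/-- `k`-connectedness of a graph. -/
def IsKConnected {V : Type} (k : ℕ) (G : SimpleGraph V) : Prop :=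
  k < Nat.card V ∧ ∀ S : Finset V, S.card < k → (G.induce ((↑S : Set V)ᶜ)).Connected

/-- `G` has a Hamiltonian cycle. -/
def HasHamiltonianCycle {V : Type} (G : SimpleGraph V) : Prop :=
  ∃ (a : V) (p : G.Walk a a), p.IsCycle ∧ ∀ v : V, v ∈ p.support

end Pool.Agent.Helper23.Conf
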