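import Pool.Agent.Helper23.Conf.Check

set_option autoImplicit false

namespace Pool.Agent.Helper23.Conf

def pt (i : Fin 246) : ℕ × ℕ × ℕ := ptL[i.1]'(by rw [len_pt]; exact i.2)

def ln (j : Fin 246) : ℕ × ℕ × ℕ := lnL[j.1]'(by rw [len_ln]; exact j.2)

theorem rowOf_testBit (i j : ℕ) (hj : j < 246) : (rowOf i).testBit j = T i j := by
  unfold rowOf T
  rw [Nat.testBit_mod_two_pow, Nat.testBit_shiftRight]
  simp [hj]

theorem colOf_testBit (j i : ℕ) (hi : i < 246) : (colOf j).testBit i = Tt j i := by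
  unfold colOf Tt
  rw [Nat.testBit_mod_two_pow, Nat.testBit_shiftRight]
  simp [hi]

theorem inc_iff (i j : Fin 246) :
    (ln j).1 * (pt i).1 + (ln j).2.1 * (pt i).2.1 + (ln j).2.2 * (pt i).2.2
      = K * ((pt i).1 + (pt i).2.1 + (pt i).2.2) ↔ T i j = true := by
  have h1 := allIdx_spec _ _ 0 check_inc i.1 (by rw [len_pt]; exact i.2)
  simp only [Nat.zero_add] at h1
  have h2 := rowCheck_spec _ _ _ _ lnL _ h1 j.1 (by rw [len_ln]; exact j.2)
  rw [rowOf_testBit _ _ j.2] at h2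
  exact h2

theorem W_pos (i : Fin 246) : 0 < (pt i).2.2 := by
  have h := List.all_eq_true.1 check_W (pt i) (List.getElem_mem _)
  exact Nat.le_of_ble_eq_true h

theorem AB_ne (j : Fin 246) : (ln j).1 ≠ K ∨ (ln j).2.1 ≠ K := by
  have h := List.all_eq_true.1 check_AB (ln j) (List.getElem_mem _)
  by_contra hc
  push Not at hc
  rw [hc.1, hc.2] at h
  simp at h

theorem testBit_four (a b c d j : ℕ) :
    (((2 ^ a ||| 2 ^ b) ||| 2 ^ c) ||| 2 ^ d).testBit j = true ↔ j = a ∨ j = b ∨ j = c ∨ j = d := by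
  simp only [Nat.testBit_or, Nat.testBit_two_pow, Bool.or_eq_true, decide_eq_true_eq]
  constructor
  · rintro (((h | h) | h) | h) <;> simp [h]
  · rintro (h | h | h | h) <;> simp [h]

theorem row_data (i : Fin 246) : ∃ a b c d : Fin 246, a < b ∧ b < c ∧ c < d ∧
    (∀ j : Fin 246, T i j = true ↔ j = a ∨ j = b ∨ j = c ∨ j = d) ∧
    Tt a i = true ∧ Tt b i = true ∧ Tt c i = true ∧ Tt d i = true := by
  have h := allIdx_spec _ _ 0 check_row i.1 (by rw [len_nb]; exact i.2)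
  simp only [Nat.zero_add, Bool.and_eq_true, Nat.blt_eq] at h
  obtain ⟨h0, h1, h2, h3, h4, t1, t2, t3, t4⟩ := h
  set c := nbL[i.1]'(by rw [len_nb]; exact i.2) with hc
  refine ⟨⟨c.1, by omega⟩, ⟨c.2.1, by omega⟩, ⟨c.2.2.1, by omega⟩, ⟨c.2.2.2, h4⟩, h1, h2, h3,
    ?_, t1, t2, t3, t4⟩
  intro j
  rw [← rowOf_testBit _ _ j.2, Nat.eq_of_beq_eq_true h0, testBit_four]
  simp only [Fin.ext_iff]

theorem col_data (j : Fin 246) : ∃ a b c d : Fin 246, a < b ∧ b < c ∧ c < d ∧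
    (∀ i : Fin 246, Tt j i = true ↔ i = a ∨ i = b ∨ i = c ∨ i = d) ∧
    T a j = true ∧ T b j = true ∧ T c j = true ∧ T d j = true := by
  have h := allIdx_spec _ _ 0 check_col j.1 (by rw [len_nc]; exact j.2)
  simp only [Nat.zero_add, Bool.and_eq_true, Nat.blt_eq] at h
  obtain ⟨h0, h1, h2, h3, h4, t1, t2, t3, t4⟩ := h
  set c := ncL[j.1]'(by rw [len_nc]; exact j.2) with hc
  refine ⟨⟨c.1, by omega⟩, ⟨c.2.1, by omega⟩, ⟨c.2.2.1, by omega⟩, ⟨c.2.2.2, h4⟩, h1, h2, h3,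
    ?_, t1, t2, t3, t4⟩
  intro i
  rw [← colOf_testBit _ _ i.2, Nat.eq_of_beq_eq_true h0, testBit_four]
  simp only [Fin.ext_iff]

theorem T_eq_Tt (i j : Fin 246) : T i j = true ↔ Tt j i = true := by
  constructor
  · intro h
    obtain ⟨a, b, c, d, -, -, -, hh, ha, hb, hc, hd⟩ := row_data i
    rcases (hh j).1 h with rfl | rfl | rfl | rfl <;> assumption
  · intro h
    obtain ⟨a, b, c, d, -, -, -, hh, ha, hb, hc, hd⟩ := col_data j
    rcases (hh i).1 h with rfl | rfl | rfl | rfl <;> assumption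

theorem card_four {s : Finset (Fin 246)} {a b c d : Fin 246} (h1 : a < b) (h2 : b < c) (h3 : c < d)
    (h : ∀ j, j ∈ s ↔ j = a ∨ j = b ∨ j = c ∨ j = d) : s.card = 4 := by
  have : s = {a, b, c, d} := by
    ext j; rw [h]; simp
  rw [this]
  have e1 : a ≠ b := ne_of_lt h1
  have e2 : a ≠ c := ne_of_lt (h1.trans h2)
  have e3 : a ≠ d := ne_of_lt (h1.trans (h2.trans h3))
  have e4 : b ≠ c := ne_of_lt h2
  have e5 : b ≠ d := ne_of_lt (h2.trans h3)
  have e6 : c ≠ d := ne_of_lt h3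
  rw [Finset.card_insert_of_notMem, Finset.card_insert_of_notMem, Finset.card_insert_of_notMem,
    Finset.card_singleton] <;> simp [*]

theorem deg_row (i : Fin 246) : (Finset.univ.filter (fun j : Fin 246 => T i j = true)).card = 4 := by
  obtain ⟨a, b, c, d, h1, h2, h3, hh, -⟩ := row_data i
  exact card_four h1 h2 h3 (fun j => by simp [hh])

theorem deg_col (j : Fin 246) : (Finset.univ.filter (fun i : Fin 246 => T i j = true)).card = 4 := by
  obtain ⟨a, b, c, d, h1, h2, h3, hh, -⟩ := col_data j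
  exact card_four h1 h2 h3 (fun i => by simp [T_eq_Tt, hh])

end Pool.Agent.Helper23.Conf
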