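import Pool.Agent.Helper23.Conf.Main

set_option autoImplicit false
open Classical

namespace Pool.Agent.Helper23.Conf

theorem main4 :
    ∃ (P : Finset (EuclideanSpace ℝ (Fin 2)))
      (L : Finset (AffineSubspace ℝ (EuclideanSpace ℝ (Fin 2)))),
      P.card = 246 ∧ L.card = 246 ∧
      (∀ l ∈ L, Module.finrank ℝ l.direction = 1) ∧
      (∀ p ∈ P, (L.filter (fun l => p ∈ l)).card = 4) ∧
      (∀ l ∈ L, (P.filter (fun p => p ∈ l)).card = 4) ∧
      ∃ G : SimpleGraph ({p // p ∈ P} ⊕ {l // l ∈ L}),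
        G = SimpleGraph.fromRel
          (fun a b : {p // p ∈ P} ⊕ {l // l ∈ L} =>
            ∃ p l, a = Sum.inl p ∧ b = Sum.inr l ∧
              (p : EuclideanSpace ℝ (Fin 2)) ∈
                (l : AffineSubspace ℝ (EuclideanSpace ℝ (Fin 2)))) ∧
        4 < Fintype.card ({p // p ∈ P} ⊕ {l // l ∈ L}) ∧
        (∀ S : Finset ({p // p ∈ P} ⊕ {l // l ∈ L}), S.card < 4 →
          (G.induce ((↑S : Set ({p // p ∈ P} ⊕ {l // l ∈ L}))ᶜ)).Connected) ∧
        ¬ G.IsHamiltonian := by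
  let P : Finset (EuclideanSpace ℝ (Fin 2)) := Finset.univ.map ⟨fP, fP_inj⟩
  let L : Finset (AffineSubspace ℝ (EuclideanSpace ℝ (Fin 2))) := Finset.univ.map ⟨gL, gL_inj⟩
  have hPm : ∀ i, fP i ∈ P := fun i => Finset.mem_map.2 ⟨i, Finset.mem_univ _, rfl⟩
  have hLm : ∀ j, gL j ∈ L := fun j => Finset.mem_map.2 ⟨j, Finset.mem_univ _, rfl⟩
  let eP : Fin 246 ≃ {p // p ∈ P} := Equiv.ofBijective (fun i => ⟨fP i, hPm i⟩)
    ⟨fun i j h => fP_inj (congrArg Subtype.val h), fun ⟨p, hp⟩ => by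
      obtain ⟨i, _, hi⟩ := Finset.mem_map.1 hp
      exact ⟨i, Subtype.ext hi⟩⟩
  let eL : Fin 246 ≃ {l // l ∈ L} := Equiv.ofBijective (fun i => ⟨gL i, hLm i⟩)
    ⟨fun i j h => gL_inj (congrArg Subtype.val h), fun ⟨p, hp⟩ => by
      obtain ⟨i, _, hi⟩ := Finset.mem_map.1 hp
      exact ⟨i, Subtype.ext hi⟩⟩
  let e : ({p // p ∈ P} ⊕ {l // l ∈ L}) ≃ V0 := (Equiv.sumCongr eP eL).symm
  have hcardV : Fintype.card ({p // p ∈ P} ⊕ {l // l ∈ L}) = 492 := by
    rw [Fintype.card_congr e]; simp [V0]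
  have he : ∀ a b, (SimpleGraph.fromRel
          (fun a b : {p // p ∈ P} ⊕ {l // l ∈ L} =>
            ∃ p l, a = Sum.inl p ∧ b = Sum.inr l ∧
              (p : EuclideanSpace ℝ (Fin 2)) ∈
                (l : AffineSubspace ℝ (EuclideanSpace ℝ (Fin 2))))).Adj a b ↔
      G0.Adj (e a) (e b) := by
    have hlr : ∀ i j, (SimpleGraph.fromRel
          (fun a b : {p // p ∈ P} ⊕ {l // l ∈ L} =>
            ∃ p l, a = Sum.inl p ∧ b = Sum.inr l ∧
              (p : EuclideanSpace ℝ (Fin 2)) ∈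
                (l : AffineSubspace ℝ (EuclideanSpace ℝ (Fin 2))))).Adj
          (Sum.inl (eP i)) (Sum.inr (eL j)) ↔ T i j = true := by
      intro i j
      rw [← mem_iff]
      simp [SimpleGraph.fromRel_adj, eP, eL, hPm, hLm]
    intro a b
    obtain ⟨a, rfl⟩ := e.symm.surjective a
    obtain ⟨b, rfl⟩ := e.symm.surjective b
    rw [Equiv.apply_symm_apply, Equiv.apply_symm_apply]
    have hs : ∀ x, e.symm x = Sum.map eP eL x := fun x => rfl
    rw [hs, hs]
    rcases a with a | a <;> rcases b with b | b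
    · simp only [Sum.map_inl]
      refine iff_of_false ?_ (G0_ll _ _)
      simp [SimpleGraph.fromRel_adj]
    · simp only [Sum.map_inl, Sum.map_inr]
      rw [hlr, G0_lr]
    · simp only [Sum.map_inl, Sum.map_inr]
      rw [SimpleGraph.adj_comm, hlr, G0_rl]
    · simp only [Sum.map_inr]
      refine iff_of_false ?_ (G0_rr _ _)
      simp [SimpleGraph.fromRel_adj]
  refine ⟨P, L, by simp [P], by simp [L], ?_, ?_, ?_, _, rfl, ?_, ?_, ?_⟩
  · intro l hl
    obtain ⟨j, _, rfl⟩ := Finset.mem_map.1 hl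
    exact finrank_lineOf (gL_ne j)
  · intro p hp
    obtain ⟨i, _, rfl⟩ := Finset.mem_map.1 hp
    rw [Finset.filter_map, Finset.card_map, ← deg_row i]
    congr 1
    ext j
    simp [mem_iff]
  · intro l hl
    obtain ⟨j, _, rfl⟩ := Finset.mem_map.1 hl
    rw [Finset.filter_map, Finset.card_map, ← deg_col j]
    congr 1
    ext i
    simp [mem_iff]
  · rw [hcardV]; norm_num
  · intro S hS
    exact connG _ e he S hS
  · exact notHam _ e he

end Pool.Agent.Helper23.Conf
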