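import Pool.Agent.Helper23.Conf.Main
import Pool.Agent.Helper23.Conf.Defs

set_option autoImplicit false

namespace Pool.Agent.Helper23.Conf

noncomputable def fQ (i : Fin 246) : ℝ × ℝ :=
  (((pt i).1 : ℝ) / ((pt i).2.2 : ℝ), ((pt i).2.1 : ℝ) / ((pt i).2.2 : ℝ))

def gQ (j : Fin 246) : Set (ℝ × ℝ) :=
  {p | (((ln j).1 : ℝ) - (K : ℝ)) * p.1 + (((ln j).2.1 : ℝ) - (K : ℝ)) * p.2 =
    -(((ln j).2.2 : ℝ) - (K : ℝ))}

theorem mem_iffQ (i j : Fin 246) : fQ i ∈ gQ j ↔ T i j = true := by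
  rw [← inc_iff]
  have hW : ((pt i).2.2 : ℝ) ≠ 0 := by
    have := W_pos i
    exact_mod_cast this.ne'
  simp only [gQ, fQ, Set.mem_ofPred_eq]
  rw [← @Nat.cast_inj ℝ]
  push_cast
  constructor
  · intro h
    field_simp at h
    linarith
  · intro h
    field_simp
    linarith

theorem fQ_inj : Function.Injective fQ := by
  intro i i' h
  apply row_inj
  intro j hj
  rw [← mem_iffQ] at hj ⊢
  rw [← h]; exact hj

theorem gQ_inj : Function.Injective gQ := by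
  intro j j' h
  apply col_inj
  intro i hi
  rw [← mem_iffQ] at hi ⊢
  rw [← h]; exact hi

noncomputable def PP : Finset (ℝ × ℝ) := Finset.univ.map ⟨fQ, fQ_inj⟩

noncomputable def LL : Finset (Set (ℝ × ℝ)) := Finset.univ.map ⟨gQ, gQ_inj⟩

theorem PP_mem (i : Fin 246) : fQ i ∈ PP := Finset.mem_map.2 ⟨i, Finset.mem_univ _, rfl⟩

theorem LL_mem (i : Fin 246) : gQ i ∈ LL := Finset.mem_map.2 ⟨i, Finset.mem_univ _, rfl⟩

noncomputable def eP : Fin 246 ≃ {p // p ∈ PP} := Equiv.ofBijective (fun i => ⟨fQ i, PP_mem i⟩)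
    ⟨fun i j h => fQ_inj (congrArg Subtype.val h), fun ⟨p, hp⟩ => by
      obtain ⟨i, _, hi⟩ := Finset.mem_map.1 hp
      exact ⟨i, Subtype.ext hi⟩⟩

noncomputable def eL : Fin 246 ≃ {l // l ∈ LL} := Equiv.ofBijective (fun i => ⟨gQ i, LL_mem i⟩)
    ⟨fun i j h => gQ_inj (congrArg Subtype.val h), fun ⟨p, hp⟩ => by
      obtain ⟨i, _, hi⟩ := Finset.mem_map.1 hp
      exact ⟨i, Subtype.ext hi⟩⟩

noncomputable def ee : ({p // p ∈ PP} ⊕ {l // l ∈ LL}) ≃ V0 := (Equiv.sumCongr eP eL).symm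

theorem levi_lr (i j : Fin 246) :
    (leviGraph PP LL).Adj (Sum.inl (eP i)) (Sum.inr (eL j)) ↔ T i j = true := by
  rw [← mem_iffQ]
  unfold leviGraph
  rw [SimpleGraph.fromRel_adj]
  constructor
  · rintro ⟨-, ⟨p, l, h1, h2, h3⟩ | ⟨p, l, h1, h2, h3⟩⟩
    · rw [← Sum.inl.inj h1, ← Sum.inr.inj h2] at h3
      exact h3
    · exact absurd h1 (by simp)
  · intro h
    exact ⟨by simp, Or.inl ⟨_, _, rfl, rfl, h⟩⟩

theorem ee_adj (a b : {p // p ∈ PP} ⊕ {l // l ∈ LL}) :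
    (leviGraph PP LL).Adj a b ↔ G0.Adj (ee a) (ee b) := by
  obtain ⟨a, rfl⟩ := ee.symm.surjective a
  obtain ⟨b, rfl⟩ := ee.symm.surjective b
  rw [Equiv.apply_symm_apply, Equiv.apply_symm_apply]
  have hs : ∀ x, ee.symm x = Sum.map eP eL x := fun x => rfl
  rw [hs, hs]
  rcases a with a | a <;> rcases b with b | b
  · refine iff_of_false ?_ (G0_ll _ _)
    simp [leviGraph, SimpleGraph.fromRel_adj]
  · simp only [Sum.map_inl, Sum.map_inr]
    rw [G0_lr, levi_lr]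
  · simp only [Sum.map_inl, Sum.map_inr]
    rw [SimpleGraph.adj_comm, levi_lr, G0_rl]
  · refine iff_of_false ?_ (G0_rr _ _)
    simp [leviGraph, SimpleGraph.fromRel_adj]

theorem config246 : IsGeometricConfiguration 246 4 PP LL := by
  refine ⟨by simp [PP], by simp [LL], ?_, ?_, ?_⟩
  · intro l hl
    obtain ⟨j, _, rfl⟩ := Finset.mem_map.1 hl
    exact ⟨_, _, _, gL_ne j, rfl⟩
  · intro p hp
    obtain ⟨i, _, rfl⟩ := Finset.mem_map.1 hp
    have h : {l : Set (ℝ × ℝ) | l ∈ LL ∧ fQ i ∈ l} =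
        ↑((Finset.univ.filter (fun j : Fin 246 => T i j = true)).map ⟨gQ, gQ_inj⟩) := by
      ext l
      simp only [Set.mem_ofPred_eq, Finset.coe_map, Function.Embedding.coeFn_mk, Set.mem_image,
        SetLike.mem_coe, Finset.mem_filter, Finset.mem_univ, true_and]
      constructor
      · rintro ⟨hl, hi⟩
        obtain ⟨j, _, rfl⟩ := Finset.mem_map.1 hl
        exact ⟨j, (mem_iffQ i j).1 hi, rfl⟩
      · rintro ⟨j, hj, rfl⟩
        exact ⟨LL_mem j, (mem_iffQ i j).2 hj⟩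
    change {l : Set (ℝ × ℝ) | l ∈ LL ∧ fQ i ∈ l}.ncard = 4
    rw [h, Set.ncard_coe_finset, Finset.card_map, deg_row]
  · intro l hl
    obtain ⟨j, _, rfl⟩ := Finset.mem_map.1 hl
    have h : {p : ℝ × ℝ | p ∈ PP ∧ p ∈ gQ j} =
        ↑((Finset.univ.filter (fun i : Fin 246 => T i j = true)).map ⟨fQ, fQ_inj⟩) := by
      ext p
      simp only [Set.mem_ofPred_eq, Finset.coe_map, Function.Embedding.coeFn_mk, Set.mem_image,
        SetLike.mem_coe, Finset.mem_filter, Finset.mem_univ, true_and]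
      constructor
      · rintro ⟨hp, hi⟩
        obtain ⟨i, _, rfl⟩ := Finset.mem_map.1 hp
        exact ⟨i, (mem_iffQ i j).1 hi, rfl⟩
      · rintro ⟨i, hi, rfl⟩
        exact ⟨PP_mem i, (mem_iffQ i j).2 hi⟩
    change {p : ℝ × ℝ | p ∈ PP ∧ p ∈ gQ j}.ncard = 4
    rw [h, Set.ncard_coe_finset, Finset.card_map, deg_col]

theorem kconn : IsKConnected 4 (leviGraph PP LL) := by
  refine ⟨?_, fun S hS => connG _ ee ee_adj S hS⟩
  rw [Nat.card_congr ee]
  simp [V0]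

theorem nonham : ¬ HasHamiltonianCycle (leviGraph PP LL) := by
  classical
  rintro ⟨a, p, hp, hall⟩
  refine notHam (leviGraph PP LL) ee ee_adj (fun _ => ⟨a, p, ?_⟩)
  rw [SimpleGraph.Walk.isHamiltonianCycle_isCycle_and_isHamiltonian_tail]
  refine ⟨hp, hp.isPath_tail.isHamiltonian_of_mem (fun v => ?_)⟩
  rw [SimpleGraph.Walk.support_tail_of_not_nil _ hp.not_nil]
  have hv := hall v
  rw [← SimpleGraph.Walk.cons_tail_support, List.mem_cons] at hv
  rcases hv with rfl | hv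
  · exact SimpleGraph.Walk.end_mem_tail_support hp.not_nil
  · exact hv

theorem main246 : ∃ (P : Finset (ℝ × ℝ)) (L : Finset (Set (ℝ × ℝ))),
    IsGeometricConfiguration 246 4 P L ∧ IsKConnected 4 (leviGraph P L) ∧
      ¬ HasHamiltonianCycle (leviGraph P L) :=
  ⟨PP, LL, config246, kconn, nonham⟩

end Pool.Agent.Helper23.Conf
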