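import Pool.Agent.Helper23.Conf.Facts

set_option autoImplicit false

namespace Pool.Agent.Helper23.Conf

abbrev E2 := EuclideanSpace ℝ (Fin 2)

noncomputable def lineOf (a b c : ℝ) : AffineSubspace ℝ E2 :=
  AffineSubspace.mk' (!₂[-(a * c) / (a ^ 2 + b ^ 2), -(b * c) / (a ^ 2 + b ^ 2)] : E2)
    (Submodule.span ℝ {(!₂[-b, a] : E2)})

theorem mem_lineOf {a b c : ℝ} (h : a ≠ 0 ∨ b ≠ 0) (p : E2) :
    p ∈ lineOf a b c ↔ a * p 0 + b * p 1 + c = 0 := by
  have hpos : a ^ 2 + b ^ 2 ≠ 0 := by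
    rcases h with h | h
    · have := sq_pos_of_ne_zero h; have := sq_nonneg b; linarith
    · have := sq_pos_of_ne_zero h; have := sq_nonneg a; linarith
  rw [lineOf, AffineSubspace.mem_mk', Submodule.mem_span_singleton]
  constructor
  · rintro ⟨t, ht⟩
    have h0 : t * (-b) = p 0 - (-(a * c) / (a ^ 2 + b ^ 2)) := by
      have := congrArg (fun v : E2 => v 0) ht
      simpa using this
    have h1 : t * a = p 1 - (-(b * c) / (a ^ 2 + b ^ 2)) := by
      have := congrArg (fun v : E2 => v 1) ht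
      simpa using this
    have e0 : p 0 = t * (-b) + (-(a * c) / (a ^ 2 + b ^ 2)) := by linarith
    have e1 : p 1 = t * a + (-(b * c) / (a ^ 2 + b ^ 2)) := by linarith
    rw [e0, e1]
    field_simp
    ring
  · intro hp
    refine ⟨(a * p 1 - b * p 0) / (a ^ 2 + b ^ 2), ?_⟩
    have hc : c = -(a * p 0) - b * p 1 := by linarith
    ext i
    fin_cases i
    · simp [hc]
      field_simp
      ring
    · simp [hc]
      field_simp
      ring

theorem finrank_lineOf {a b c : ℝ} (h : a ≠ 0 ∨ b ≠ 0) :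
    Module.finrank ℝ (lineOf a b c).direction = 1 := by
  rw [lineOf, AffineSubspace.direction_mk']
  apply finrank_span_singleton
  intro h0
  have h1 : -b = 0 := by
    have := congrArg (fun v : E2 => v 0) h0
    simpa using this
  have h2 : a = 0 := by
    have := congrArg (fun v : E2 => v 1) h0
    simpa using this
  rcases h with h | h
  · exact h h2
  · exact h (by linarith)

noncomputable def fP (i : Fin 246) : E2 :=
  !₂[((pt i).1 : ℝ) / ((pt i).2.2 : ℝ), ((pt i).2.1 : ℝ) / ((pt i).2.2 : ℝ)]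

noncomputable def gL (j : Fin 246) : AffineSubspace ℝ E2 :=
  lineOf (((ln j).1 : ℝ) - (K : ℝ)) (((ln j).2.1 : ℝ) - (K : ℝ)) (((ln j).2.2 : ℝ) - (K : ℝ))

theorem gL_ne (j : Fin 246) : ((ln j).1 : ℝ) - (K : ℝ) ≠ 0 ∨ ((ln j).2.1 : ℝ) - (K : ℝ) ≠ 0 := by
  rcases AB_ne j with h | h
  · left; rw [sub_ne_zero]; exact_mod_cast h
  · right; rw [sub_ne_zero]; exact_mod_cast h

theorem mem_iff (i j : Fin 246) : fP i ∈ gL j ↔ T i j = true := by
  rw [gL, mem_lineOf (gL_ne j), ← inc_iff]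
  have hW : ((pt i).2.2 : ℝ) ≠ 0 := by
    have := W_pos i
    exact_mod_cast this.ne'
  have h0 : (fP i) 0 = ((pt i).1 : ℝ) / ((pt i).2.2 : ℝ) := by simp [fP]
  have h1 : (fP i) 1 = ((pt i).2.1 : ℝ) / ((pt i).2.2 : ℝ) := by simp [fP]
  rw [h0, h1]
  rw [← @Nat.cast_inj ℝ]
  push_cast
  constructor
  · intro h
    field_simp at h
    linarith
  · intro h
    field_simp
    linarith

theorem row_inj (i i' : Fin 246) (h : ∀ j : Fin 246, T i j = true → T i' j = true) : i = i' := by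
  have h1 := allIdx_spec _ _ 0 check_rowinj i.1 (by rw [len_nb]; exact i.2)
  have h2 := allIdx_spec _ _ 0 check_row i.1 (by rw [len_nb]; exact i.2)
  simp only [Nat.zero_add, Bool.and_eq_true, Nat.blt_eq] at h1 h2
  obtain ⟨h0, g1, g2, g3, g4, -⟩ := h2
  set c := nbL[i.1]'(by rw [len_nb]; exact i.2) with hc
  have h0' := Nat.eq_of_beq_eq_true h0
  have h1' := Nat.eq_of_beq_eq_true h1
  have b1 : c.1 < 246 := by omega
  have b2 : c.2.1 < 246 := by omega
  have ta : T i (⟨c.1, b1⟩ : Fin 246) = true := by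
    rw [← rowOf_testBit _ _ b1, h0', testBit_four]; simp
  have tb : T i (⟨c.2.1, b2⟩ : Fin 246) = true := by
    rw [← rowOf_testBit _ _ b2, h0', testBit_four]; simp
  have ta' := (T_eq_Tt i' ⟨c.1, b1⟩).1 (h _ ta)
  have tb' := (T_eq_Tt i' ⟨c.2.1, b2⟩).1 (h _ tb)
  have h3 : (colOf c.1 &&& colOf c.2.1).testBit i'.1 = true := by
    rw [Nat.testBit_land, colOf_testBit _ _ i'.2, colOf_testBit _ _ i'.2]
    simp only [Bool.and_eq_true]
    exact ⟨ta', tb'⟩
  rw [h1', Nat.testBit_two_pow] at h3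
  exact Fin.ext (by simpa using h3)

theorem col_inj (j j' : Fin 246) (h : ∀ i : Fin 246, T i j = true → T i j' = true) : j = j' := by
  have h1 := allIdx_spec _ _ 0 check_colinj j.1 (by rw [len_nc]; exact j.2)
  have h2 := allIdx_spec _ _ 0 check_col j.1 (by rw [len_nc]; exact j.2)
  simp only [Nat.zero_add, Bool.and_eq_true, Nat.blt_eq] at h1 h2
  obtain ⟨h0, g1, g2, g3, g4, t1, t2, -⟩ := h2
  set c := ncL[j.1]'(by rw [len_nc]; exact j.2) with hc
  have h1' := Nat.eq_of_beq_eq_true h1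
  have b1 : c.1 < 246 := by omega
  have b2 : c.2.1 < 246 := by omega
  have ta' := h ⟨c.1, b1⟩ t1
  have tb' := h ⟨c.2.1, b2⟩ t2
  have h3 : (rowOf c.1 &&& rowOf c.2.1).testBit j'.1 = true := by
    rw [Nat.testBit_land, rowOf_testBit _ _ j'.2, rowOf_testBit _ _ j'.2]
    simp only [Bool.and_eq_true]
    exact ⟨ta', tb'⟩
  rw [h1', Nat.testBit_two_pow] at h3
  exact Fin.ext (by simpa using h3)

theorem fP_inj : Function.Injective fP := by
  intro i i' h
  apply row_inj
  intro j hj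
  rw [← mem_iff] at hj ⊢
  rw [← h]; exact hj

theorem gL_inj : Function.Injective gL := by
  intro j j' h
  apply col_inj
  intro i hi
  rw [← mem_iff] at hi ⊢
  rw [← h]; exact hi

end Pool.Agent.Helper23.Conf
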