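import Pool.Agent.Helper23.Conf.Facts

set_option autoImplicit false
set_option linter.constructorNameAsVariable false

namespace Pool.Agent.Helper23.Conf

def gp (i : ℕ) : ℕ := bif Nat.ble 126 i then 6 + (i - 126) / 20 else i / 21

def gl (j : ℕ) : ℕ := bif Nat.ble 126 j then (j - 126) / 20 else 6 + j / 21

def gchk (i j : ℕ) : Bool :=
  Nat.beq (gp i) (gl j) || outL.any (fun x => Nat.beq x.1 i && Nat.beq x.2 j)

theorem check_gad : allIdx (fun i c => gchk i c.1 && (gchk i c.2.1 && (gchk i c.2.2.1 &&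
    gchk i c.2.2.2))) 0 nbL = true := by
  decide +kernel

theorem len_out : outL.length = 24 := by decide +kernel

theorem out_lt : ∀ x ∈ outL, x.1 < 246 ∧ x.2 < 246 := by decide +kernel

def o (k : Fin 24) : Fin 246 × Fin 246 :=
  (⟨(outL[k.1]'(by rw [len_out]; exact k.2)).1, (out_lt _ (List.getElem_mem _)).1⟩,
   ⟨(outL[k.1]'(by rw [len_out]; exact k.2)).2, (out_lt _ (List.getElem_mem _)).2⟩)

theorem o_inj : Function.Injective o := by
  decide +kernel

theorem o_gad : ∀ k : Fin 24, gp (o k).1 < 6 ∧ 6 ≤ gl (o k).2 := by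
  decide +kernel

theorem T_gad (i j : Fin 246) (h : T i j = true) : gp i = gl j ∨ ∃ k : Fin 24, o k = (i, j) := by
  have h1 := allIdx_spec _ _ 0 check_gad i.1 (by rw [len_nb]; exact i.2)
  have h2 := allIdx_spec _ _ 0 check_row i.1 (by rw [len_nb]; exact i.2)
  simp only [Nat.zero_add, Bool.and_eq_true, Nat.blt_eq] at h1 h2
  obtain ⟨h0, -⟩ := h2
  set c := nbL[i.1]'(by rw [len_nb]; exact i.2) with hc
  have h3 : gchk i j = true := by
    rw [← rowOf_testBit _ _ j.2, Nat.eq_of_beq_eq_true h0, testBit_four] at h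
    rcases h with h | h | h | h
    · rw [h]; exact h1.1
    · rw [h]; exact h1.2.1
    · rw [h]; exact h1.2.2.1
    · rw [h]; exact h1.2.2.2
  rw [gchk, Bool.or_eq_true] at h3
  rcases h3 with h3 | h3
  · left; exact Nat.eq_of_beq_eq_true h3
  · right
    rw [List.any_eq_true] at h3
    obtain ⟨x, hx, hx2⟩ := h3
    rw [Bool.and_eq_true] at hx2
    obtain ⟨k, hk, rfl⟩ := List.getElem_of_mem hx
    refine ⟨⟨k, by rw [len_out] at hk; exact hk⟩, ?_⟩
    apply Prod.ext
    · exact Fin.ext (Nat.eq_of_beq_eq_true hx2.1)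
    · exact Fin.ext (Nat.eq_of_beq_eq_true hx2.2)

theorem cardP : ∀ g : Fin 12, (Finset.univ.filter (fun i : Fin 246 => gp i = g.1)).card =
    if g.1 < 6 then 21 else 20 := by
  decide +kernel

theorem cardL : ∀ g : Fin 12, (Finset.univ.filter (fun i : Fin 246 => gl i = g.1)).card =
    if g.1 < 6 then 20 else 21 := by
  decide +kernel

section
variable (C : Fin 246 → Fin 246 → Prop) [DecidableRel C]

def EE : Finset (Fin 246 × Fin 246) := Finset.univ.filter (fun x => C x.1 x.2)

theorem card_rows (hr : ∀ i, (Finset.univ.filter (fun j => C i j)).card = 2) (g : ℕ) :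
    ((EE C).filter (fun x => gp x.1 = g)).card =
      2 * (Finset.univ.filter (fun i : Fin 246 => gp i = g)).card := by
  rw [Finset.card_eq_sum_card_fiberwise (f := Prod.fst)
    (t := Finset.univ.filter (fun i : Fin 246 => gp i = g))]
  · rw [Finset.sum_const_nat (m := 2)]
    · exact Nat.mul_comm _ _
    · intro i hi
      rw [Finset.mem_filter] at hi
      refine Eq.trans ?_ ((Finset.card_map (⟨fun j => (i, j), fun a b h => (Prod.ext_iff.1 h).2⟩ :
        Fin 246 ↪ Fin 246 × Fin 246)).trans (hr i))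
      refine congrArg Finset.card ?_
      ext x
      simp only [EE, Finset.mem_filter, Finset.mem_univ, true_and, Finset.mem_map,
        Function.Embedding.coeFn_mk]
      constructor
      · rintro ⟨⟨h1, h2⟩, h3⟩
        exact ⟨x.2, h3 ▸ h1, Prod.ext h3.symm rfl⟩
      · rintro ⟨j, hj, rfl⟩
        exact ⟨⟨hj, hi.2⟩, rfl⟩
  · intro x hx
    simp only [Finset.coe_filter, Set.mem_ofPred_eq] at hx
    simp only [Finset.coe_filter, Set.mem_ofPred_eq, Finset.mem_univ, true_and]
    exact hx.2

theorem card_cols (hc : ∀ j, (Finset.univ.filter (fun i => C i j)).card = 2) (g : ℕ) :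
    ((EE C).filter (fun x => gl x.2 = g)).card =
      2 * (Finset.univ.filter (fun i : Fin 246 => gl i = g)).card := by
  rw [Finset.card_eq_sum_card_fiberwise (f := Prod.snd)
    (t := Finset.univ.filter (fun i : Fin 246 => gl i = g))]
  · rw [Finset.sum_const_nat (m := 2)]
    · exact Nat.mul_comm _ _
    · intro j hj
      rw [Finset.mem_filter] at hj
      refine Eq.trans ?_ ((Finset.card_map (⟨fun i => (i, j), fun a b h => (Prod.ext_iff.1 h).1⟩ :
        Fin 246 ↪ Fin 246 × Fin 246)).trans (hc j))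
      refine congrArg Finset.card ?_
      ext x
      simp only [EE, Finset.mem_filter, Finset.mem_univ, true_and, Finset.mem_map,
        Function.Embedding.coeFn_mk]
      constructor
      · rintro ⟨⟨h1, h2⟩, h3⟩
        exact ⟨x.1, h3 ▸ h1, Prod.ext rfl h3.symm⟩
      · rintro ⟨i, hi, rfl⟩
        exact ⟨⟨hi, hj.2⟩, rfl⟩
  · intro x hx
    simp only [Finset.coe_filter, Set.mem_ofPred_eq] at hx
    simp only [Finset.coe_filter, Set.mem_ofPred_eq, Finset.mem_univ, true_and]
    exact hx.2

def cc (k : Fin 24) : ℕ := if C (o k).1 (o k).2 then 1 else 0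

theorem eqP (hCT : ∀ i j, C i j → T i j = true)
    (hr : ∀ i, (Finset.univ.filter (fun j => C i j)).card = 2)
    (hc : ∀ j, (Finset.univ.filter (fun i => C i j)).card = 2) (g : Fin 12) (hg : g.1 < 6) :
    ∑ k : Fin 24, (if gp (o k).1 = g.1 then cc C k else 0) = 2 := by
  have h1 := card_rows C hr g.1
  have h2 := card_cols C hc g.1
  rw [cardP g, if_pos hg] at h1
  rw [cardL g, if_pos hg] at h2
  have hsplit : (EE C).filter (fun x => gp x.1 = g.1) =
      ((EE C).filter (fun x => gl x.2 = g.1)) ∪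
      ((Finset.univ.filter (fun k : Fin 24 => gp (o k).1 = g.1 ∧ C (o k).1 (o k).2)).map
        ⟨o, o_inj⟩) := by
    ext x
    simp only [EE, Finset.mem_filter, Finset.mem_univ, true_and, Finset.mem_union, Finset.mem_map,
      Function.Embedding.coeFn_mk]
    constructor
    · rintro ⟨hx, hgx⟩
      rcases T_gad x.1 x.2 (hCT _ _ hx) with h | ⟨k, hk⟩
      · left; exact ⟨hx, by rw [← h, hgx]⟩
      · right
        have hk' : o k = x := hk
        exact ⟨k, ⟨by rw [hk']; exact hgx, by rw [hk']; exact hx⟩, hk'⟩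
    · rintro (⟨hx, hgx⟩ | ⟨k, ⟨hk1, hk2⟩, rfl⟩)
      · refine ⟨hx, ?_⟩
        rcases T_gad x.1 x.2 (hCT _ _ hx) with h | ⟨k, hk⟩
        · rw [h, hgx]
        · exfalso
          have := (o_gad k).2
          have hk' : o k = x := hk
          rw [hk', hgx] at this
          omega
      · exact ⟨hk2, hk1⟩
  have hdisj : Disjoint ((EE C).filter (fun x => gl x.2 = g.1))
      ((Finset.univ.filter (fun k : Fin 24 => gp (o k).1 = g.1 ∧ C (o k).1 (o k).2)).map
        ⟨o, o_inj⟩) := by
    rw [Finset.disjoint_left]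
    intro x hx hx2
    simp only [EE, Finset.mem_filter, Finset.mem_univ, true_and, Finset.mem_map,
      Function.Embedding.coeFn_mk] at hx hx2
    obtain ⟨k, -, rfl⟩ := hx2
    have := (o_gad k).2
    omega
  rw [hsplit, Finset.card_union_of_disjoint hdisj, Finset.card_map, h2] at h1
  have h3 : (Finset.univ.filter (fun k : Fin 24 => gp (o k).1 = g.1 ∧ C (o k).1 (o k).2)).card
      = 2 := by omega
  rw [← h3, Finset.card_filter]
  apply Finset.sum_congr rfl
  intro k _
  unfold cc
  by_cases ha : gp (o k).1 = g.1 <;> by_cases hb : C (o k).1 (o k).2 <;> simp [ha, hb]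

theorem eqL (hCT : ∀ i j, C i j → T i j = true)
    (hr : ∀ i, (Finset.univ.filter (fun j => C i j)).card = 2)
    (hc : ∀ j, (Finset.univ.filter (fun i => C i j)).card = 2) (g : Fin 12) (hg : 6 ≤ g.1) :
    ∑ k : Fin 24, (if gl (o k).2 = g.1 then cc C k else 0) = 2 := by
  have h1 := card_rows C hr g.1
  have h2 := card_cols C hc g.1
  rw [cardP g, if_neg (by omega)] at h1
  rw [cardL g, if_neg (by omega)] at h2
  have hsplit : (EE C).filter (fun x => gl x.2 = g.1) =
      ((EE C).filter (fun x => gp x.1 = g.1)) ∪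
      ((Finset.univ.filter (fun k : Fin 24 => gl (o k).2 = g.1 ∧ C (o k).1 (o k).2)).map
        ⟨o, o_inj⟩) := by
    ext x
    simp only [EE, Finset.mem_filter, Finset.mem_univ, true_and, Finset.mem_union, Finset.mem_map,
      Function.Embedding.coeFn_mk]
    constructor
    · rintro ⟨hx, hgx⟩
      rcases T_gad x.1 x.2 (hCT _ _ hx) with h | ⟨k, hk⟩
      · left; exact ⟨hx, by rw [h, hgx]⟩
      · right
        have hk' : o k = x := hk
        exact ⟨k, ⟨by rw [hk']; exact hgx, by rw [hk']; exact hx⟩, hk'⟩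
    · rintro (⟨hx, hgx⟩ | ⟨k, ⟨hk1, hk2⟩, rfl⟩)
      · refine ⟨hx, ?_⟩
        rcases T_gad x.1 x.2 (hCT _ _ hx) with h | ⟨k, hk⟩
        · rw [← h, hgx]
        · exfalso
          have := (o_gad k).1
          have hk' : o k = x := hk
          rw [hk', hgx] at this
          omega
      · exact ⟨hk2, hk1⟩
  have hdisj : Disjoint ((EE C).filter (fun x => gp x.1 = g.1))
      ((Finset.univ.filter (fun k : Fin 24 => gl (o k).2 = g.1 ∧ C (o k).1 (o k).2)).map
        ⟨o, o_inj⟩) := by
    rw [Finset.disjoint_left]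
    intro x hx hx2
    simp only [EE, Finset.mem_filter, Finset.mem_univ, true_and, Finset.mem_map,
      Function.Embedding.coeFn_mk] at hx hx2
    obtain ⟨k, -, rfl⟩ := hx2
    have := (o_gad k).1
    omega
  rw [hsplit, Finset.card_union_of_disjoint hdisj, Finset.card_map, h1] at h2
  have h3 : (Finset.univ.filter (fun k : Fin 24 => gl (o k).2 = g.1 ∧ C (o k).1 (o k).2)).card
      = 2 := by omega
  rw [← h3, Finset.card_filter]
  apply Finset.sum_congr rfl
  intro k _
  unfold cc
  by_cases ha : gl (o k).2 = g.1 <;> by_cases hb : C (o k).1 (o k).2 <;> simp [ha, hb]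

theorem cut (hCT : ∀ i j, C i j → T i j = true)
    (hcut : ∀ A : ℕ → Bool, (∃ g, g < 12 ∧ A g = true) → (∃ g, g < 12 ∧ A g = false) →
      ∃ i j, C i j ∧ A (gp i) ≠ A (gl j))
    (A : ℕ → Bool) (h1 : ∃ g, g < 12 ∧ A g = true) (h2 : ∃ g, g < 12 ∧ A g = false) :
    1 ≤ ∑ k : Fin 24, (if A (gp (o k).1) ≠ A (gl (o k).2) then cc C k else 0) := by
  obtain ⟨i, j, hC, hA⟩ := hcut A h1 h2
  rcases T_gad i j (hCT _ _ hC) with h | ⟨k, hk⟩
  · rw [h] at hA; exact absurd rfl hA
  · have h3 : (if A (gp (o k).1) ≠ A (gl (o k).2) then cc C k else 0) = 1 := by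
      rw [hk]
      simp only [ne_eq]
      rw [if_pos hA]
      unfold cc
      rw [hk]
      simp [hC]
    calc 1 = (if A (gp (o k).1) ≠ A (gl (o k).2) then cc C k else 0) := h3.symm
      _ ≤ _ := Finset.single_le_sum (f := fun k : Fin 24 =>
          if A (gp (o k).1) ≠ A (gl (o k).2) then cc C k else 0)
          (fun _ _ => Nat.zero_le _) (Finset.mem_univ k)

end

end Pool.Agent.Helper23.Conf
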