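import Pool.Agent.Helper23.Conf.Ham

set_option autoImplicit false
set_option linter.constructorNameAsVariable false

namespace Pool.Agent.Helper23.Conf

theorem fs_g0 : (Finset.univ.filter (fun k : Fin 24 => gp (o k).1 = 0)) = {0, 7, 8, 9} := by
  decide +kernel

theorem fs_g1 : (Finset.univ.filter (fun k : Fin 24 => gp (o k).1 = 1)) = {1, 2, 16, 17} := by
  decide +kernel

theorem fs_g2 : (Finset.univ.filter (fun k : Fin 24 => gp (o k).1 = 2)) = {3, 4, 10, 11} := by
  decide +kernel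

theorem fs_g3 : (Finset.univ.filter (fun k : Fin 24 => gp (o k).1 = 3)) = {5, 6, 18, 19} := by
  decide +kernel

theorem fs_g4 : (Finset.univ.filter (fun k : Fin 24 => gp (o k).1 = 4)) = {12, 13, 14, 15} := by
  decide +kernel

theorem fs_g5 : (Finset.univ.filter (fun k : Fin 24 => gp (o k).1 = 5)) = {20, 21, 22, 23} := by
  decide +kernel

theorem fs_g6 : (Finset.univ.filter (fun k : Fin 24 => gl (o k).2 = 6)) = {0, 1, 12, 13} := by
  decide +kernel

theorem fs_g7 : (Finset.univ.filter (fun k : Fin 24 => gl (o k).2 = 7)) = {2, 3, 20, 21} := by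
  decide +kernel

theorem fs_g8 : (Finset.univ.filter (fun k : Fin 24 => gl (o k).2 = 8)) = {4, 5, 14, 15} := by
  decide +kernel

theorem fs_g9 : (Finset.univ.filter (fun k : Fin 24 => gl (o k).2 = 9)) = {6, 7, 22, 23} := by
  decide +kernel

theorem fs_g10 : (Finset.univ.filter (fun k : Fin 24 => gl (o k).2 = 10)) = {8, 9, 10, 11} := by
  decide +kernel

theorem fs_g11 : (Finset.univ.filter (fun k : Fin 24 => gl (o k).2 = 11)) = {16, 17, 18, 19} := by
  decide +kernel

def A0 (g : ℕ) : Bool := Nat.beq g 0 || Nat.beq g 10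

theorem fs_A0 : (Finset.univ.filter (fun k : Fin 24 => A0 (gp (o k).1) ≠ A0 (gl (o k).2)))
    = {0, 7, 10, 11} := by
  decide +kernel

def A1 (g : ℕ) : Bool := Nat.beq g 4 || Nat.beq g 6

theorem fs_A1 : (Finset.univ.filter (fun k : Fin 24 => A1 (gp (o k).1) ≠ A1 (gl (o k).2)))
    = {0, 1, 14, 15} := by
  decide +kernel

def A2 (g : ℕ) : Bool := Nat.beq g 1 || Nat.beq g 11

theorem fs_A2 : (Finset.univ.filter (fun k : Fin 24 => A2 (gp (o k).1) ≠ A2 (gl (o k).2)))
    = {1, 2, 18, 19} := by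
  decide +kernel

def A3 (g : ℕ) : Bool := Nat.beq g 5 || Nat.beq g 7

theorem fs_A3 : (Finset.univ.filter (fun k : Fin 24 => A3 (gp (o k).1) ≠ A3 (gl (o k).2)))
    = {2, 3, 22, 23} := by
  decide +kernel

def A4 (g : ℕ) : Bool := Nat.beq g 2 || Nat.beq g 10

theorem fs_A4 : (Finset.univ.filter (fun k : Fin 24 => A4 (gp (o k).1) ≠ A4 (gl (o k).2)))
    = {3, 4, 8, 9} := by
  decide +kernel

def A5 (g : ℕ) : Bool := Nat.beq g 4 || Nat.beq g 8

theorem fs_A5 : (Finset.univ.filter (fun k : Fin 24 => A5 (gp (o k).1) ≠ A5 (gl (o k).2)))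
    = {4, 5, 12, 13} := by
  decide +kernel

def A6 (g : ℕ) : Bool := Nat.beq g 3 || Nat.beq g 11

theorem fs_A6 : (Finset.univ.filter (fun k : Fin 24 => A6 (gp (o k).1) ≠ A6 (gl (o k).2)))
    = {5, 6, 16, 17} := by
  decide +kernel

def A7 (g : ℕ) : Bool := Nat.beq g 5 || Nat.beq g 9

theorem fs_A7 : (Finset.univ.filter (fun k : Fin 24 => A7 (gp (o k).1) ≠ A7 (gl (o k).2)))
    = {6, 7, 20, 21} := by
  decide +kernel

def A8 (g : ℕ) : Bool := Nat.beq g 0 || Nat.beq g 2 || Nat.beq g 4 || Nat.beq g 6 || Nat.beq g 8 || Nat.beq g 10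

theorem fs_A8 : (Finset.univ.filter (fun k : Fin 24 => A8 (gp (o k).1) ≠ A8 (gl (o k).2)))
    = {1, 3, 5, 7} := by
  decide +kernel

def A9 (g : ℕ) : Bool := Nat.beq g 1 || Nat.beq g 3 || Nat.beq g 4 || Nat.beq g 6 || Nat.beq g 8 || Nat.beq g 11

theorem fs_A9 : (Finset.univ.filter (fun k : Fin 24 => A9 (gp (o k).1) ≠ A9 (gl (o k).2)))
    = {0, 2, 4, 6} := by
  decide +kernel

theorem combi (C : Fin 246 → Fin 246 → Prop) [DecidableRel C]
    (hCT : ∀ i j, C i j → T i j = true)
    (hr : ∀ i, (Finset.univ.filter (fun j => C i j)).card = 2)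
    (hc : ∀ j, (Finset.univ.filter (fun i => C i j)).card = 2)
    (hcut : ∀ A : ℕ → Bool, (∃ g, g < 12 ∧ A g = true) → (∃ g, g < 12 ∧ A g = false) →
      ∃ i j, C i j ∧ A (gp i) ≠ A (gl j)) : False := by
  have e0 := eqP C hCT hr hc 0 (by decide)
  rw [← Finset.sum_filter] at e0
  erw [fs_g0] at e0
  simp [Finset.sum_insert] at e0
  have e1 := eqP C hCT hr hc 1 (by decide)
  rw [← Finset.sum_filter] at e1
  erw [fs_g1] at e1
  simp [Finset.sum_insert] at e1
  have e2 := eqP C hCT hr hc 2 (by decide)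
  rw [← Finset.sum_filter] at e2
  erw [fs_g2] at e2
  simp [Finset.sum_insert] at e2
  have e3 := eqP C hCT hr hc 3 (by decide)
  rw [← Finset.sum_filter] at e3
  erw [fs_g3] at e3
  simp [Finset.sum_insert] at e3
  have e4 := eqP C hCT hr hc 4 (by decide)
  rw [← Finset.sum_filter] at e4
  erw [fs_g4] at e4
  simp [Finset.sum_insert] at e4
  have e5 := eqP C hCT hr hc 5 (by decide)
  rw [← Finset.sum_filter] at e5
  erw [fs_g5] at e5
  simp [Finset.sum_insert] at e5
  have e6 := eqL C hCT hr hc 6 (by decide)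
  rw [← Finset.sum_filter] at e6
  erw [fs_g6] at e6
  simp [Finset.sum_insert] at e6
  have e7 := eqL C hCT hr hc 7 (by decide)
  rw [← Finset.sum_filter] at e7
  erw [fs_g7] at e7
  simp [Finset.sum_insert] at e7
  have e8 := eqL C hCT hr hc 8 (by decide)
  rw [← Finset.sum_filter] at e8
  erw [fs_g8] at e8
  simp [Finset.sum_insert] at e8
  have e9 := eqL C hCT hr hc 9 (by decide)
  rw [← Finset.sum_filter] at e9
  erw [fs_g9] at e9
  simp [Finset.sum_insert] at e9
  have e10 := eqL C hCT hr hc 10 (by decide)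
  rw [← Finset.sum_filter] at e10
  erw [fs_g10] at e10
  simp [Finset.sum_insert] at e10
  have e11 := eqL C hCT hr hc 11 (by decide)
  rw [← Finset.sum_filter] at e11
  erw [fs_g11] at e11
  simp [Finset.sum_insert] at e11
  have f0 := cut C hCT hcut A0 ⟨0, by decide, by decide⟩ ⟨1, by decide, by decide⟩
  rw [← Finset.sum_filter, fs_A0] at f0
  simp [Finset.sum_insert] at f0
  have f1 := cut C hCT hcut A1 ⟨4, by decide, by decide⟩ ⟨0, by decide, by decide⟩
  rw [← Finset.sum_filter, fs_A1] at f1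
  simp [Finset.sum_insert] at f1
  have f2 := cut C hCT hcut A2 ⟨1, by decide, by decide⟩ ⟨0, by decide, by decide⟩
  rw [← Finset.sum_filter, fs_A2] at f2
  simp [Finset.sum_insert] at f2
  have f3 := cut C hCT hcut A3 ⟨5, by decide, by decide⟩ ⟨0, by decide, by decide⟩
  rw [← Finset.sum_filter, fs_A3] at f3
  simp [Finset.sum_insert] at f3
  have f4 := cut C hCT hcut A4 ⟨2, by decide, by decide⟩ ⟨0, by decide, by decide⟩
  rw [← Finset.sum_filter, fs_A4] at f4
  simp [Finset.sum_insert] at f4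
  have f5 := cut C hCT hcut A5 ⟨4, by decide, by decide⟩ ⟨0, by decide, by decide⟩
  rw [← Finset.sum_filter, fs_A5] at f5
  simp [Finset.sum_insert] at f5
  have f6 := cut C hCT hcut A6 ⟨3, by decide, by decide⟩ ⟨0, by decide, by decide⟩
  rw [← Finset.sum_filter, fs_A6] at f6
  simp [Finset.sum_insert] at f6
  have f7 := cut C hCT hcut A7 ⟨5, by decide, by decide⟩ ⟨0, by decide, by decide⟩
  rw [← Finset.sum_filter, fs_A7] at f7
  simp [Finset.sum_insert] at f7
  have f8 := cut C hCT hcut A8 ⟨0, by decide, by decide⟩ ⟨1, by decide, by decide⟩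
  rw [← Finset.sum_filter, fs_A8] at f8
  simp [Finset.sum_insert] at f8
  have f9 := cut C hCT hcut A9 ⟨1, by decide, by decide⟩ ⟨0, by decide, by decide⟩
  rw [← Finset.sum_filter, fs_A9] at f9
  simp [Finset.sum_insert] at f9
  have hle : ∀ k, cc C k ≤ 1 := by
    intro k; unfold cc; split_ifs <;> omega
  have b0 := hle 0
  have b1 := hle 1
  have b2 := hle 2
  have b3 := hle 3
  have b4 := hle 4
  have b5 := hle 5
  have b6 := hle 6
  have b7 := hle 7
  omega

end Pool.Agent.Helper23.Conf
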