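import Pool.Agent.Helper23.Conf.Geom
import Pool.Agent.Helper23.Conf.Conn
import Pool.Agent.Helper23.Conf.Ham2

set_option autoImplicit false
set_option linter.constructorNameAsVariable false

namespace Pool.Agent.Helper23.Conf

abbrev V0 := Fin 246 ⊕ Fin 246

def G0 : SimpleGraph V0 :=
  SimpleGraph.fromRel (fun a b => ∃ i j, a = Sum.inl i ∧ b = Sum.inr j ∧
    T (i : Fin 246).1 (j : Fin 246).1 = true)

theorem G0_lr (i j : Fin 246) : G0.Adj (Sum.inl i) (Sum.inr j) ↔ T i j = true := by
  simp [G0, SimpleGraph.fromRel_adj]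

theorem G0_rl (i j : Fin 246) : G0.Adj (Sum.inr j) (Sum.inl i) ↔ T i j = true := by
  rw [SimpleGraph.adj_comm, G0_lr]

theorem G0_ll (i j : Fin 246) : ¬ G0.Adj (Sum.inl i) (Sum.inl j) := by
  simp [G0, SimpleGraph.fromRel_adj]

theorem G0_rr (i j : Fin 246) : ¬ G0.Adj (Sum.inr i) (Sum.inr j) := by
  simp [G0, SimpleGraph.fromRel_adj]

def gad : V0 → ℕ := Sum.elim (fun i => gp i.1) (fun j => gl j.1)

theorem gad_surj (g : ℕ) (hg : g < 12) : ∃ x : V0, gad x = g := by
  have h := cardP ⟨g, hg⟩
  have h2 : 0 < (Finset.univ.filter (fun i : Fin 246 => gp i = g)).card := by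
    rw [h]; split_ifs <;> norm_num
  obtain ⟨i, hi⟩ := Finset.card_pos.1 h2
  exact ⟨Sum.inl i, (Finset.mem_filter.1 hi).2⟩

open Classical in
theorem notHam0 (b : V0) (q : G0.Walk b b) (hq : q.IsHamiltonianCycle) : False := by
  refine combi (fun i j => q.toSubgraph.Adj (Sum.inl i) (Sum.inr j)) ?_ ?_ ?_ ?_
  · intro i j h
    exact (G0_lr i j).1 (q.toSubgraph.adj_sub h)
  · intro i
    have h := hq.isCycle.ncard_neighborSet_toSubgraph_eq_two (hq.mem_support (Sum.inl i))
    have h2 : q.toSubgraph.neighborSet (Sum.inl i) =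
        Sum.inr '' {j : Fin 246 | q.toSubgraph.Adj (Sum.inl i) (Sum.inr j)} := by
      ext x
      rcases x with x | x
      · simp only [SimpleGraph.Subgraph.mem_neighborSet, Set.mem_image, Set.mem_ofPred_eq,
          reduceCtorEq, and_false, exists_false, iff_false]
        intro hx
        exact G0_ll _ _ (q.toSubgraph.adj_sub hx)
      · simp
    rw [h2, Set.ncard_image_of_injective _ Sum.inr_injective] at h
    rw [← h, ← Set.ncard_coe_finset]
    congr 1
    ext j
    simp
  · intro j
    have h := hq.isCycle.ncard_neighborSet_toSubgraph_eq_two (hq.mem_support (Sum.inr j))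
    have h2 : q.toSubgraph.neighborSet (Sum.inr j) =
        Sum.inl '' {i : Fin 246 | q.toSubgraph.Adj (Sum.inl i) (Sum.inr j)} := by
      ext x
      rcases x with x | x
      · simp [SimpleGraph.Subgraph.adj_comm]
      · simp only [SimpleGraph.Subgraph.mem_neighborSet, Set.mem_image, Set.mem_ofPred_eq,
          reduceCtorEq, and_false, exists_false, iff_false]
        intro hx
        exact G0_rr _ _ (q.toSubgraph.adj_sub hx)
    rw [h2, Set.ncard_image_of_injective _ Sum.inl_injective] at h
    rw [← h, ← Set.ncard_coe_finset]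
    congr 1
    ext i
    simp
  · intro A hA1 hA2
    obtain ⟨g1, hg1, ha1⟩ := hA1
    obtain ⟨g2, hg2, ha2⟩ := hA2
    obtain ⟨u, rfl⟩ := gad_surj g1 hg1
    obtain ⟨w, rfl⟩ := gad_surj g2 hg2
    have key : ∃ x y : V0, q.toSubgraph.Adj x y ∧ A (gad x) ≠ A (gad y) := by
      by_cases hb : A (gad b) = true
      · obtain ⟨d, hd, h1, h2⟩ := (q.takeUntil w (hq.mem_support w)).exists_boundary_dart
          {x | A (gad x) = true} hb (by simp [ha2])
        have hd' := q.darts_takeUntil_subset_darts (hq.mem_support w) hd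
        have he : d.edge ∈ q.edges := List.mem_map_of_mem hd'
        rw [← SimpleGraph.Walk.mem_edges_toSubgraph] at he
        refine ⟨d.fst, d.snd, he, ?_⟩
        simp only [Set.mem_ofPred_eq] at h1 h2
        rw [h1]; exact fun h => h2 h.symm
      · obtain ⟨d, hd, h1, h2⟩ := (q.takeUntil u (hq.mem_support u)).exists_boundary_dart
          {x | ¬ A (gad x) = true} hb (by simp [ha1])
        have hd' := q.darts_takeUntil_subset_darts (hq.mem_support u) hd
        have he : d.edge ∈ q.edges := List.mem_map_of_mem hd'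
        rw [← SimpleGraph.Walk.mem_edges_toSubgraph] at he
        refine ⟨d.fst, d.snd, he, ?_⟩
        simp only [Set.mem_ofPred_eq, not_not] at h1 h2
        rw [h2]; exact h1
    obtain ⟨x, y, hxy, hne⟩ := key
    rcases x with x | x <;> rcases y with y | y
    · exact absurd (q.toSubgraph.adj_sub hxy) (G0_ll _ _)
    · exact ⟨x, y, hxy, hne⟩
    · exact ⟨y, x, hxy.symm, hne.symm⟩
    · exact absurd (q.toSubgraph.adj_sub hxy) (G0_rr _ _)

theorem notHam {V : Type*} [Fintype V] [DecidableEq V] (G : SimpleGraph V) (e : V ≃ V0)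
    (he : ∀ a b, G.Adj a b ↔ G0.Adj (e a) (e b)) : ¬ G.IsHamiltonian := by
  intro h
  have hcard : Fintype.card V ≠ 1 := by
    rw [Fintype.card_congr e]; simp [V0]
  obtain ⟨a, p, hp⟩ := h hcard
  classical
  let f : G →g G0 := ⟨e, fun {a b} hab => (he a b).1 hab⟩
  have h2 : (p.map f).IsHamiltonianCycle := hp.map e.bijective
  refine notHam0 _ (p.map f) ?_
  convert h2

def code : V0 → ℕ := Sum.elim (fun i => i.1) (fun j => 246 + j.1)

theorem code_inj : Function.Injective code := by
  intro a b h
  rcases a with a | a <;> rcases b with b | b <;> simp only [code, Sum.elim_inl, Sum.elim_inr] at h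
  · rw [Fin.ext h]
  · exfalso; have := a.2; omega
  · exfalso; have := b.2; omega
  · have : a = b := Fin.ext (by omega)
    rw [this]

theorem code_lt (x : V0) : code x < 492 := by
  rcases x with a | a <;> simp only [code, Sum.elim_inl, Sum.elim_inr] <;> have := a.2 <;> omega

theorem adjB_code_lr (i j : Fin 246) : adjB (code (Sum.inl i)) (code (Sum.inr j)) = T i j := by
  simp only [code, Sum.elim_inl, Sum.elim_inr, adjB]
  have h1 : Nat.ble 246 i.1 = false := by
    rw [Bool.eq_false_iff]; intro h
    have := Nat.le_of_ble_eq_true h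
    have := i.2
    omega
  have h2 : Nat.ble 246 (246 + j.1) = true := Nat.ble_eq_true_of_le (by omega)
  have h3 : Nat.ble (246 + j.1) 491 = true := Nat.ble_eq_true_of_le (by have := j.2; omega)
  rw [h1, h2, h3]
  simp

theorem adj_of_adjB (u v : ℕ) (h : adjB u v = true) :
    ∃ a b : V0, code a = u ∧ code b = v ∧ G0.Adj a b := by
  have hlt := adjB_lt u v h
  have hex : ∀ w, w < 492 → ∃ a : V0, code a = w := by
    intro w hw
    by_cases h : w < 246
    · exact ⟨Sum.inl ⟨w, h⟩, rfl⟩
    · exact ⟨Sum.inr ⟨w - 246, by omega⟩, by simp only [code, Sum.elim_inr]; omega⟩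
  obtain ⟨a, rfl⟩ := hex u hlt.1
  obtain ⟨b, rfl⟩ := hex v hlt.2
  refine ⟨a, b, rfl, rfl, ?_⟩
  rcases a with a | a <;> rcases b with b | b
  · exfalso
    simp only [code, Sum.elim_inl, adjB] at h
    have h1 : Nat.ble 246 a.1 = false := by
      rw [Bool.eq_false_iff]; intro h
      have := Nat.le_of_ble_eq_true h
      have := a.2
      omega
    have h2 : Nat.ble 246 b.1 = false := by
      rw [Bool.eq_false_iff]; intro h
      have := Nat.le_of_ble_eq_true h
      have := b.2
      omega
    rw [h1, h2] at h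
    simp at h
  · rw [adjB_code_lr] at h
    exact (G0_lr _ _).2 h
  · rw [adjB_symm, adjB_code_lr] at h
    exact (G0_rl _ _).2 h
  · exfalso
    simp only [code, Sum.elim_inr, adjB] at h
    have h1 : Nat.ble 246 (246 + a.1) = true := Nat.ble_eq_true_of_le (by omega)
    have h2 : Nat.ble 246 (246 + b.1) = true := Nat.ble_eq_true_of_le (by omega)
    rw [h1, h2] at h
    simp at h

theorem connG {V : Type*} (G : SimpleGraph V) (e : V ≃ V0)
    (he : ∀ a b, G.Adj a b ↔ G0.Adj (e a) (e b)) (S : Finset V) (hS : S.card < 4) :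
    (G.induce ((↑S : Set V)ᶜ)).Connected := by
  classical
  let c : V → ℕ := fun x => code (e x)
  have hc : Function.Injective c := code_inj.comp e.injective
  let S' : Finset ℕ := S.image c
  have hS' : S'.card ≤ 3 := le_trans Finset.card_image_le (by omega)
  have hmem : ∀ x, c x ∈ S' ↔ x ∈ S := by
    intro x
    simp only [S', Finset.mem_image]
    constructor
    · rintro ⟨y, hy, hyx⟩; rw [← hc hyx]; exact hy
    · intro hx; exact ⟨x, hx, rfl⟩
  have hreach : ∀ (u v : ℕ), Relation.ReflTransGen (R S') u v → ∀ (x y : V) (hx : x ∉ S)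
      (hy : y ∉ S), c x = u → c y = v → (G.induce ((↑S : Set V)ᶜ)).Reachable
      ⟨x, by simpa using hx⟩ ⟨y, by simpa using hy⟩ := by
    intro u v huv
    induction huv with
    | refl =>
      intro x y hx hy h1 h2
      have : x = y := hc (h1.trans h2.symm)
      subst this
      exact SimpleGraph.Reachable.refl _
    | tail _ h2 ih =>
      rename_i v w _
      intro x y hx hy h1 h3
      obtain ⟨a, b, ha, hb, hab⟩ := adj_of_adjB _ _ h2.1
      have hz : e.symm a ∉ S := by
        rw [← hmem]
        simp only [c, Equiv.apply_symm_apply, ha]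
        exact h2.2.1
      have hyb : e y = b := code_inj (h3.trans hb.symm)
      have hr := ih x (e.symm a) hx hz h1 (by simp only [c, Equiv.apply_symm_apply, ha])
      refine hr.trans (SimpleGraph.Adj.reachable ?_)
      rw [SimpleGraph.comap_adj]
      simp only [Function.Embedding.subtype_apply]
      rw [he, Equiv.apply_symm_apply, hyb]
      exact hab
  have hne : ∃ x, x ∉ S := by
    have hV : Fintype V := Fintype.ofEquiv V0 e.symm
    by_contra hcon
    push Not at hcon
    have h1 : Fintype.card V ≤ S.card := by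
      rw [← Finset.card_univ]
      exact Finset.card_le_card (fun x _ => hcon x)
    rw [Fintype.card_congr e] at h1
    simp [V0] at h1
    omega
  obtain ⟨x0, hx0⟩ := hne
  rw [SimpleGraph.connected_iff]
  refine ⟨?_, ⟨⟨x0, by simpa using hx0⟩⟩⟩
  rintro ⟨x, hx⟩ ⟨y, hy⟩
  have hx' : x ∉ S := by simpa using hx
  have hy' : y ∉ S := by simpa using hy
  exact hreach _ _ (conn S' hS' (c x) (c y) (code_lt _) (code_lt _) (by rwa [hmem])
    (by rwa [hmem])) x y hx' hy' rfl rfl

end Pool.Agent.Helper23.Conf
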